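import Pool.Agent.V7H71.SufIP.UComm

namespace Pool.Agent.Results.MP_a08e32_al.CommutativeH71

open Pool.Agent.V7H71.UF

/-- Every commutative universally flexible loop has the semi-automorphic inverse property. -/
theorem result {Q : Type*} (L : LoopStr Q) (comm : ∀ x y, L.mul x y = L.mul y x) (uf : L.UF) :
    L.SAIP :=
  uf.saip_of_comm comm

end Pool.Agent.Results.MP_a08e32_al.CommutativeH71
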