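import Pool.Agent.V7H71.UF.Nil

/-!
# Nilpotent universally flexible loops without involutions in the central factors
-/

namespace Pool.Agent.Results.MP_a08e32_al.NilpotentNoInvolutionH71

open Pool.Agent.V7H71.UF

universe u

/-- A universally flexible loop that is centrally nilpotent, and for which no factor of the upper
central series has an element of order two, is a middle Bol loop and has the semi-automorphic
inverse property. -/
theorem result {Q : Type u} (L : LoopStr Q) (n : ℕ) (hn : LoopStr.CNil n Q L) (uf : L.UF) :
    L.MiddleBol ∧ L.SAIP :=
  have h := LoopStr.CNil.middleBol n Q L hn uf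
  ⟨h, h.saip uf⟩

end Pool.Agent.Results.MP_a08e32_al.NilpotentNoInvolutionH71
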