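import Pool.Agent.V7H71.SufIP.UComm

namespace Pool.Agent.Results.MP_a08e32_al.NuclearOverMoufangH71

open Pool.Agent.V7H71.UF

/-- A universally flexible loop that has a surjective homomorphism with kernel inside the nucleus
to a loop with a one-sided inverse property or a one-sided alternative law has the semi-automorphic
inverse property. -/
theorem result {Q N : Type*} (L : LoopStr Q) (M : LoopStr N) (f : Q → N)
    (hom : ∀ x y, f (L.mul x y) = M.mul (f x) (f y)) (surj : Function.Surjective f)
    (ker : ∀ k, f k = M.one → L.Nuclear k)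
    (law : M.LIP ∨ M.RIP ∨ M.LAlt ∨ M.RAlt) (uf : L.UF) : L.SAIP :=
  LoopStr.Hom.saip (φ := f) hom ker uf ((LoopStr.Hom.uf (φ := f) hom surj uf).moufang_of_weak law)

end Pool.Agent.Results.MP_a08e32_al.NuclearOverMoufangH71
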