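import Pool.Agent.V7H71.SufIP.USq

namespace Pool.Agent.Results.MP_a08e32_al.NuclearSquaresH71

open Pool.Agent.V7H71.UF

/-- Every universally flexible loop all of whose squares lie in the nucleus has the
semi-automorphic inverse property. -/
theorem result {Q : Type*} (L : LoopStr Q) (sq : ∀ x, L.Nuclear (L.mul x x)) (uf : L.UF) :
    L.SAIP :=
  uf.saip_of_sqNuc sq

end Pool.Agent.Results.MP_a08e32_al.NuclearSquaresH71
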